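import Mathlib
import Pool.Agent.Q113.MS.All

/-!
# A linear upper bound with a small constant for the Manickam–Miklós–Singhi threshold
-/

set_option autoImplicit false

namespace Pool.Agent.Results.MP_0665ce_co.LinearUpperBound

open Finset

/-- `s_k(x)`: the number of `k`-subsets of `[n]` with nonnegative sum -/
noncomputable def s (k : ℕ) {n : ℕ} (x : Fin n → ℝ) : ℕ :=
  (((univ : Finset (Fin n)).powersetCard k).filter (fun S => 0 ≤ ∑ i ∈ S, x i)).card

/-- `f(k)`: the least `m` such that for every `n ≥ m` every `x ∈ ℝ^n` with nonnegative sum has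
`s_k(x) ≥ C(n-1,k-1)` -/
noncomputable def f (k : ℕ) : ℕ :=
  sInf {m : ℕ | ∀ n : ℕ, m ≤ n → ∀ x : Fin n → ℝ, 0 ≤ ∑ i, x i → (n - 1).choose (k - 1) ≤ s k x}

/-- For every `k ≥ 2` the inequality `s_k(x) ≥ C(n-1,k-1)` holds for all `n ≥ 10 k` and all `x ∈ ℝ^n`
with nonnegative sum; hence `f(k) ≤ 10 k`. -/
theorem result (k : ℕ) (hk : 2 ≤ k) :
    (∀ n : ℕ, 10 * k ≤ n → ∀ x : Fin n → ℝ, 0 ≤ ∑ i, x i → (n - 1).choose (k - 1) ≤ s k x) ∧
      f k ≤ 10 * k := by
  classical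
  have h1 : ∀ n : ℕ, 10 * k ≤ n → ∀ x : Fin n → ℝ, 0 ≤ ∑ i, x i → (n - 1).choose (k - 1) ≤ s k x := by
    intro n hn x hx
    have h := Pool.Agent.Q113.MS.mms10 (Fin n) univ k x (by omega)
      (by rw [card_univ, Fintype.card_fin]; exact hn) hx
    rw [card_univ, Fintype.card_fin] at h
    convert h using 2
    unfold s Pool.Agent.Q113.MS.NN
    congr 1
  exact ⟨h1, Nat.sInf_le h1⟩

end Pool.Agent.Results.MP_0665ce_co.LinearUpperBound
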